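import Pool.Agent.Lib.MP_f99268_lc_U.Path

/-!
# Mixing: long paths can be placed with their ends far from any point
-/

namespace Pool.Agent.MP_f99268_lc

open Equiv Classical

variable {D : Type} {G : Subgroup (Perm D)} {F : D → D → Prop}

/-- A linear order extending a transitive relation, up to equivalence. -/
theorem exists_ext_lt (O : D → D → Prop) (htr : ∀ x y z, O x y → O y z → O x z) :
    ∃ r : D → D → Prop, (∀ x y z, r x y → r y z → r x z) ∧ (∀ x y, O x y → ¬ r y x) ∧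
      ∀ x y, x ≠ y → ¬ O x y → r x y ∨ r y x := by
  let P : Preorder D :=
    { le := fun x y => x = y ∨ O x y
      le_refl := fun _ => Or.inl rfl
      le_trans := by
        rintro x y z (rfl | h1) (rfl | h2)
        · exact Or.inl rfl
        · exact Or.inr h2
        · exact Or.inr h1
        · exact Or.inr (htr _ _ _ h1 h2) }
  let f : D → LinearExtension (Antisymmetrization D (· ≤ ·)) := fun x =>
    toLinearExtension (toAntisymmetrization (· ≤ ·) x)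
  refine ⟨fun x y => f x < f y, fun x y z => lt_trans, fun x y h => ?_, fun x y hne h => ?_⟩
  · apply not_lt_of_ge
    apply toLinearExtension.monotone
    exact Or.inr h
  · rcases lt_trichotomy (f x) (f y) with h1 | h1 | h1
    · exact Or.inl h1
    · exfalso
      have h2 : toAntisymmetrization (· ≤ ·) x = toAntisymmetrization (· ≤ ·) y := h1
      have h3 : x ≤ y := (Quotient.exact h2).1
      rcases h3 with h3 | h3
      · exact hne h3
      · exact h h3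
    · exact Or.inr h1

/-- The order argument. -/
theorem FarG.no_order (hF : FarG G F) (hR : FR G Bool) {O : D → D → Prop}
    (hinv : ∀ g ∈ G, ∀ x y, O x y → O (g x) (g y)) (htr : ∀ x y z, O x y → O y z → O x z)
    {S : Set D} (hS : ∀ x ∈ S, ∀ y ∈ S, ∃ g ∈ G, g x = y) (hS' : ∀ x ∈ S, ∀ g ∈ G, g x ∈ S)
    (h1 : ∀ x ∈ S, ∀ y, F x y → ¬ O x y) (h2 : ∀ x ∈ S, ¬ F x x)
    {x₁ o₁ z₁ x₂ o₂ z₂ : D} (hx₁ : x₁ ∈ S) (ho₁ : o₁ ∈ S) (hz₁ : z₁ ∈ S) (hx₂ : x₂ ∈ S)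
    (ho₂ : o₂ ∈ S) (hz₂ : z₂ ∈ S) (ha : F x₁ o₁) (hb : F o₁ z₁) (hc : O x₁ z₁)
    (ha' : F o₂ x₂) (hb' : F z₂ o₂) (hc' : O x₂ z₂) : False := by
  obtain ⟨r, hr1, hr2, hr3⟩ := exists_ext_lt O htr
  obtain ⟨C, hC⟩ := hR {x₁, o₁} {x₁, o₁, z₁, x₂, o₂, z₂}
  obtain ⟨h, hh, -, hmono⟩ := hC (fun φ => decide (r (φ ⟨x₁, by simp⟩) (φ ⟨o₁, by simp⟩)))
  have key : ∀ u v, F u v → u ∈ S → v ∈ S → u ∈ ({x₁, o₁, z₁, x₂, o₂, z₂} : Finset D) →
      v ∈ ({x₁, o₁, z₁, x₂, o₂, z₂} : Finset D) → (r (h u) (h v) ↔ r (h x₁) (h o₁)) := by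
    intro u v huv hu hv hu' hv'
    obtain ⟨g, hg, hgx⟩ := hS x₁ hx₁ u hu
    obtain ⟨g', hg', hgo⟩ := hS (g o₁) (hS' _ ho₁ _ hg) v hv
    obtain ⟨k, hk, hko⟩ := hF.three {u} {g o₁} g' hg' (by
      intro b hb l hl
      rw [Finset.mem_singleton] at hb hl
      subst hb hl
      refine ⟨?_, ?_⟩
      · rw [← hgx]
        exact hF.inv g hg _ _ ha
      · rw [hgo]
        exact huv)
    have hk1 := mem_st1.1 hk
    have e1 : (k * g) x₁ = u := by
      rw [Perm.mul_apply, hgx, hk1.2]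
    have e2 : (k * g) o₁ = v := by
      rw [Perm.mul_apply, hko _ (by simp), hgo]
    have h3 := hmono (h * (k * g)) (G.mul_mem hh (G.mul_mem hk1.1 hg)) h hh (by
      intro a haa
      rw [Finset.mem_insert, Finset.mem_singleton] at haa
      rcases haa with rfl | rfl
      · exact ⟨u, hu', by rw [Perm.mul_apply, e1]⟩
      · exact ⟨v, hv', by rw [Perm.mul_apply, e2]⟩)
      (by
      intro a haa
      rw [Finset.mem_insert, Finset.mem_singleton] at haa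
      rcases haa with rfl | rfl
      · exact ⟨a, by simp, rfl⟩
      · exact ⟨a, by simp, rfl⟩)
    have e3 : (h * (k * g)) x₁ = h u := congrArg h e1
    have e4 : (h * (k * g)) o₁ = h v := congrArg h e2
    simp only [e3, e4] at h3
    exact decide_eq_decide.1 h3
  have htot : ∀ u ∈ S, ∀ v, F u v → r u v ∨ r v u := by
    intro u hu v huv
    apply hr3 u v _ (h1 u hu v huv)
    rintro rfl
    exact h2 u hu huv
  by_cases hcol : r (h x₁) (h o₁)
  · have e1 := (key o₂ x₂ ha' ho₂ hx₂ (by simp) (by simp)).2 hcol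
    have e2 := (key z₂ o₂ hb' hz₂ ho₂ (by simp) (by simp)).2 hcol
    exact hr2 _ _ (hinv h hh _ _ hc') (hr1 _ _ _ e2 e1)
  · have e1 : r (h o₁) (h x₁) :=
      (htot _ (hS' _ hx₁ _ hh) _ (hF.inv h hh _ _ ha)).resolve_left hcol
    have e2 : r (h z₁) (h o₁) := by
      refine (htot _ (hS' _ ho₁ _ hh) _ (hF.inv h hh _ _ hb)).resolve_left (fun h3 => hcol ?_)
      exact (key o₁ z₁ hb ho₁ hz₁ (by simp) (by simp)).1 h3
    exact hr2 _ _ (hinv h hh _ _ hc) (hr1 _ _ _ e2 e1)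

/-- The pairs used in the paths. -/
def Lay (G : Subgroup (Perm D)) (F : D → D → Prop) (x y : D) : Prop :=
  ∀ p : D, (∃ h ∈ G, F x (h p) ∧ F (h p) y) ∧ ∃ h ∈ G, F (h p) x ∧ F (h p) y

theorem Lay.map (hF : FarG G F) {x y : D} (h : Lay G F x y) {g : Perm D} (hg : g ∈ G) :
    Lay G F (g x) (g y) := by
  intro p
  obtain ⟨⟨h1, hh1, h2, h3⟩, ⟨h4, hh4, h5, h6⟩⟩ := h p
  exact ⟨⟨g * h1, G.mul_mem hg hh1, hF.inv g hg _ _ h2, hF.inv g hg _ _ h3⟩,
    ⟨g * h4, G.mul_mem hg hh4, hF.inv g hg _ _ h5, hF.inv g hg _ _ h6⟩⟩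

/-- The letters. -/
def Ks (G : Subgroup (Perm D)) (F : D → D → Prop) (n : ℕ) : Set (PT G) :=
  {k | ∃ x y, k = tp G x y ∧ if Even n then Lay G F x y else Lay G F y x}

theorem Ks.even (hF : FarG G F) {n : ℕ} (hn : Even n) {x y : D} :
    tp G x y ∈ Ks G F n ↔ Lay G F x y := by
  constructor
  · rintro ⟨x', y', h1, h2⟩
    rw [if_pos hn] at h2
    obtain ⟨g, hg, rfl, rfl⟩ := tp_eq.1 h1.symm
    exact h2.map hF hg
  · intro h
    exact ⟨x, y, rfl, by rwa [if_pos hn]⟩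

theorem Ks.odd (hF : FarG G F) {n : ℕ} (hn : ¬ Even n) {x y : D} :
    tp G x y ∈ Ks G F n ↔ Lay G F y x := by
  constructor
  · rintro ⟨x', y', h1, h2⟩
    rw [if_neg hn] at h2
    obtain ⟨g, hg, rfl, rfl⟩ := tp_eq.1 h1.symm
    exact h2.map hF hg
  · intro h
    exact ⟨x, y, rfl, by rwa [if_neg hn]⟩

/-- The position of the centre of a fan with respect to a point of the path. -/
def Cen (F : D → D → Prop) (θ : Bool) (n : ℕ) (o x : D) : Prop :=
  if Even n then F o x else if θ = true then F o x else F x o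

theorem FarG.fan_step (hF : FarG G F) {θ : Bool} (θ' : Bool) {n : ℕ} {o x x' : D}
    (h : Cen F θ (n + 1) o x) (hk : tp G x x' ∈ Ks G F n) :
    ∃ h ∈ st G {x}, Cen F θ' n o (h x') := by
  by_cases hn : Even n
  · have hn' : ¬ Even (n + 1) := by
      rw [Nat.even_add_one]
      exact not_not.2 hn
    rw [Ks.even hF hn] at hk
    obtain ⟨⟨h1, hh1, h2, h3⟩, ⟨h4, hh4, h5, h6⟩⟩ := hk o
    unfold Cen at h
    rw [if_neg hn'] at h
    cases θ with
    | false =>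
      simp only [Bool.false_eq_true, if_false] at h
      obtain ⟨k, hk, h7⟩ := hF.three {x} {o} h1 hh1 (by simpa using ⟨h, h2⟩)
      refine ⟨k⁻¹, Subgroup.inv_mem _ hk, ?_⟩
      unfold Cen
      rw [if_pos hn, ← hF.shift (st_le hk), h7 o (by simp)]
      exact h3
    | true =>
      simp only [if_true] at h
      obtain ⟨k, hk, h7⟩ := hF.three' {o} {x} h4 hh4 (by simpa using ⟨h, h5⟩)
      refine ⟨k⁻¹, Subgroup.inv_mem _ hk, ?_⟩
      unfold Cen
      rw [if_pos hn, ← hF.shift (st_le hk), h7 o (by simp)]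
      exact h6
  · have hn' : Even (n + 1) := by
      rw [Nat.even_add_one]
      exact hn
    rw [Ks.odd hF hn] at hk
    obtain ⟨⟨h1, hh1, h2, h3⟩, ⟨h4, hh4, h5, h6⟩⟩ := hk o
    unfold Cen at h
    rw [if_pos hn'] at h
    cases θ' with
    | false =>
      obtain ⟨k, hk, h7⟩ := hF.three' {o} {x} h1 hh1 (by simpa using ⟨h, h3⟩)
      refine ⟨k⁻¹, Subgroup.inv_mem _ hk, ?_⟩
      unfold Cen
      rw [if_neg hn, if_neg (by simp), hF.shift (G.inv_mem (st_le hk)), inv_inv, h7 o (by simp)]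
      exact h2
    | true =>
      obtain ⟨k, hk, h7⟩ := hF.three' {o} {x} h4 hh4 (by simpa using ⟨h, h6⟩)
      refine ⟨k⁻¹, Subgroup.inv_mem _ hk, ?_⟩
      unfold Cen
      rw [if_neg hn, if_pos rfl, ← hF.shift (st_le hk), h7 o (by simp)]
      exact h5

theorem FarG.fan (hF : FarG G F) (θ : Bool) (n : ℕ) : ∀ (m : ℕ) {w : List (PT G)} {o x z : D},
    Word (fun i => Ks G F (n + i)) m w → Path G w x z → Cen F θ (n + m) o x →
    ∃ z', Path G w x z' ∧ Cen F θ n o z'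
  | 0, w, o, x, z, hw, hz, hc => by
    have hw' : w = [] := hw
    subst hw'
    exact ⟨x, rfl, hc⟩
  | m + 1, w, o, x, z, ⟨k, hk, w', hw, hw'⟩, hz, hc => by
    subst hw
    obtain ⟨x', h1, h2⟩ := hz
    obtain ⟨g, hg, h3⟩ := hF.fan_step θ (n := n + m) hc (x' := x') (by rw [h1]; exact hk)
    obtain ⟨z', h4, h5⟩ := hF.fan θ n m hw' (h2.map (st_le hg)) h3
    refine ⟨z', ⟨g x', ?_, h4⟩, h5⟩
    rw [← h1]
    exact (tp_left.2 ⟨g, hg, rfl⟩).symm

/-- The fans. -/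
theorem FarG.fan' (hF : FarG G F) {n m : ℕ} (hn : ¬ Even n) (hm : Even m) (hm0 : m ≠ 0)
    {w : List (PT G)} {x z : D} (hw : Word (fun i => Ks G F (n + i)) m w) (hz : Path G w x z)
    (θ θ' : Bool) {o : D} (ho : if θ = true then F o x else F x o) :
    ∃ z', Path G w x z' ∧ if θ' = true then F o z' else F z' o := by
  obtain ⟨m, rfl⟩ := Nat.exists_eq_succ_of_ne_zero hm0
  obtain ⟨k, hk, w', rfl, hw'⟩ := hw
  have hnm : ¬ Even (n + (m + 1)) := by
    rw [Nat.even_add]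
    exact fun h => hn (h.2 hm)
  obtain ⟨x', h1, h2⟩ := hz
  obtain ⟨g, hg, h3⟩ := hF.fan_step (θ := θ) θ' (n := n + m) (o := o) (x := x) (x' := x')
    (by
      unfold Cen
      rw [if_neg (by exact hnm)]
      exact ho) (by rw [h1]; exact hk)
  obtain ⟨z', h4, h5⟩ := hF.fan θ' n m hw' (h2.map (st_le hg)) h3
  refine ⟨z', ⟨g x', ?_, h4⟩, ?_⟩
  · rw [← h1]
    exact (tp_left.2 ⟨g, hg, rfl⟩).symm
  · unfold Cen at h5
    rwa [if_neg hn] at h5

theorem word_split {K : ℕ → Set (PT G)} (n : ℕ) : ∀ (m : ℕ) {w : List (PT G)},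
    Word K (n + m) w → ∃ u v, w = u ++ v ∧ Word (fun i => K (n + i)) m u ∧ Word K n v
  | 0, w, hw => ⟨[], w, rfl, rfl, hw⟩
  | m + 1, _, ⟨k, hk, w', rfl, hw'⟩ => by
    obtain ⟨u, v, rfl, h1, h2⟩ := word_split n m hw'
    exact ⟨k :: u, v, rfl, ⟨k, hk, u, rfl, h1⟩, h2⟩

/-- The closed situation is impossible. -/
theorem FarG.no_loop (hF : FarG G F) (hR : FR G Bool) {n m : ℕ} (hn : ¬ Even n) (hm : Even m)
    (hm0 : m ≠ 0) {w : List (PT G)} (hw : Word (fun i => Ks G F (n + i)) m w)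
    {X : D → D → Prop} (hX : ∀ g ∈ G, ∀ b x, X b x → X (g b) (g x))
    (hXF : ∀ b x, X b x → ¬ F b x) (hXw : ∀ b x z, X b x → Path G w x z → X b z)
    (hXo : ∀ b b' x z, X b x → X b' z → ∃ g ∈ G, g x = z)
    {b₀ x₀ : D} (h0 : X b₀ x₀) (hex : ∃ z, Path G w x₀ z) : False := by
  obtain ⟨z₀, hz₀⟩ := hex
  have hXO : ∀ x z, Relation.TransGen (Path G w) x z → ∀ b, X b x → X b z := by
    intro x z h
    induction h with
    | single h => exact fun b hb => hXw b _ _ hb h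
    | tail _ h ih => exact fun b hb => hXw b _ _ (ih b hb) h
  have hinv : ∀ g ∈ G, ∀ x y, Relation.TransGen (Path G w) x y →
      Relation.TransGen (Path G w) (g x) (g y) := by
    intro g hg x y h
    exact h.lift g (fun a b hab => Path.map hab hg)
  have hS : ∀ x, (∃ g ∈ G, g x₀ = x) → ∃ b, X b x := by
    rintro x ⟨g, hg, rfl⟩
    exact ⟨g b₀, hX g hg _ _ h0⟩
  have hS' : ∀ b x, X b x → ∃ g ∈ G, g x₀ = x := fun b x h => hXo _ _ _ _ h0 h
  have hends : ∀ z, Path G w x₀ z → ∃ g ∈ G, g x₀ = z := fun z hz =>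
    hS' b₀ z (hXw _ _ _ h0 hz)
  obtain ⟨g₁, hg₁, h1⟩ := hF.one {x₀} {x₀}
  obtain ⟨g₂, hg₂, h2⟩ := hF.two' {x₀} ∅ {x₀} (by simp)
  have h1' : F x₀ (g₁ x₀) := h1 x₀ (by simp) x₀ (by simp)
  have h2' : F (g₂ x₀) x₀ := h2 x₀ (by simp) x₀ (by simp)
  obtain ⟨z₁, h3, h4⟩ := hF.fan' hn hm hm0 hw hz₀ false true (o := g₁ x₀) (by simpa using h1')
  obtain ⟨z₂, h5, h6⟩ := hF.fan' hn hm hm0 hw hz₀ true false (o := g₂ x₀) (by simpa using h2')
  simp only [if_true] at h4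
  simp only [Bool.false_eq_true, if_false] at h6
  refine hF.no_order hR (O := Relation.TransGen (Path G w)) hinv
    (fun x y z => Relation.TransGen.trans) (S := {x | ∃ g ∈ G, g x₀ = x}) ?_ ?_ ?_ ?_
    (x₁ := x₀) (o₁ := g₁ x₀) (z₁ := z₁) (x₂ := x₀) (o₂ := g₂ x₀) (z₂ := z₂)
    ⟨1, G.one_mem, rfl⟩ ⟨g₁, hg₁, rfl⟩ (hends _ h3) ⟨1, G.one_mem, rfl⟩
    ⟨g₂, st_le hg₂, rfl⟩ (hends _ h5) h1' h4 (Relation.TransGen.single h3) h2' h6
    (Relation.TransGen.single h5)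
  · rintro x ⟨g, hg, rfl⟩ y ⟨g', hg', rfl⟩
    exact ⟨g' * g⁻¹, G.mul_mem hg' (G.inv_mem hg), by simp⟩
  · rintro x ⟨g, hg, rfl⟩ g' hg'
    exact ⟨g' * g, G.mul_mem hg' hg, rfl⟩
  · intro x hx y hxy hO
    obtain ⟨b, hb⟩ := hS x hx
    obtain ⟨h, hh, h7⟩ := hF.one {b, x} {y}
    obtain ⟨k, hk, h8⟩ := hF.three {x} {y} h hh (by
      simpa using ⟨hxy, h7 x (by simp) y (by simp)⟩)
    have hk1 := mem_st1.1 hk
    have h9 := hinv k hk1.1 _ _ hO
    rw [hk1.2, h8 y (by simp)] at h9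
    exact hXF _ _ (hXO _ _ h9 b hb) (h7 b (by simp) y (by simp))
  · intro x hx hxx
    obtain ⟨b, hb⟩ := hS x hx
    obtain ⟨h, hh, h7⟩ := hF.one {b, x} {x}
    obtain ⟨k, hk, h8⟩ := hF.three {x} {x} h hh (by
      simpa using ⟨hxx, h7 x (by simp) x (by simp)⟩)
    have hk1 := mem_st1.1 hk
    have h9 := h8 x (by simp)
    rw [hk1.2] at h9
    have h10 := h7 b (by simp) x (by simp)
    rw [← h9] at h10
    exact hXF _ _ hb h10

/-- Mixing. -/
theorem FarG.mixing (hF : FarG G F) (hO : Olig G) (hR : FR G Bool) :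
    ∃ N, ∀ b y, Un G F (Ks G F) N b y := by
  have := finite_PT hO
  have hfinS : Finite (Set (PT G)) := inferInstance
  set M := Nat.card (Set (PT G)) with hM
  refine ⟨2 * M + 1, fun b y => ?_⟩
  by_contra hcon
  unfold Un at hcon
  push Not at hcon
  obtain ⟨w, hw, ⟨z, hz⟩, hnot⟩ := hcon
  have hlen := word_length hw
  have hnF : ∀ u v, w = u ++ v → ∀ z', Path G u y z' → ¬ F b z' := by
    rintro u v rfl z' hz' hbz
    obtain ⟨y1, h1, h2⟩ := hz.split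
    obtain ⟨g, hg, h3⟩ := h1.ends hz'
    have h4 := h2.map hg
    rw [h3] at h4
    obtain ⟨z'', h5, h6⟩ := hF.cont hbz h4
    exact hnot ⟨z'', hz'.app h5, h6⟩
  let X : Fin (M + 1) → Set (PT G) := fun i =>
    {k | ∃ z', Path G (w.take (2 * M - 2 * i.1)) y z' ∧ k = tp G b z'}
  obtain ⟨i, j, hij, hXij⟩ : ∃ i j : Fin (M + 1), i < j ∧ X i = X j := by
    have hni : ¬ Function.Injective X := by
      intro hinj
      have h1 := Nat.card_le_card_of_injective X hinj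
      rw [Nat.card_eq_fintype_card, Fintype.card_fin, ← hM] at h1
      omega
    unfold Function.Injective at hni
    push Not at hni
    obtain ⟨i, j, h1, h2⟩ := hni
    rcases lt_or_gt_of_ne h2 with h3 | h3
    · exact ⟨i, j, h3, h1⟩
    · exact ⟨j, i, h3, h1.symm⟩
  have hj : j.1 ≤ M := Nat.lt_succ_iff.1 j.2
  have hij' : i.1 < j.1 := hij
  obtain ⟨a, t, rfl, ha, ht⟩ := word_split (2 * i.1 + 1) (2 * M - 2 * i.1)
    (w := w) (by
      have e : 2 * i.1 + 1 + (2 * M - 2 * i.1) = 2 * M + 1 := by omega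
      rw [e]
      exact hw)
  obtain ⟨u, v, rfl, hu, hv⟩ := word_split (2 * j.1 - 2 * i.1) (2 * M - 2 * j.1)
    (w := a) (by
      have e : 2 * j.1 - 2 * i.1 + (2 * M - 2 * j.1) = 2 * M - 2 * i.1 := by omega
      rw [e]
      exact ha)
  have hti : (u ++ v ++ t).take (2 * M - 2 * i.1) = u ++ v := List.take_left' (word_length ha)
  have htj : (u ++ v ++ t).take (2 * M - 2 * j.1) = u := by
    rw [List.append_assoc]
    exact List.take_left' (word_length hu)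
  have hXj : ∀ k, k ∈ X j ↔ ∃ z', Path G u y z' ∧ k = tp G b z' := by
    intro k
    show (∃ z', Path G ((u ++ v ++ t).take (2 * M - 2 * j.1)) y z' ∧ k = tp G b z') ↔ _
    rw [htj]
  have hXi : ∀ k, k ∈ X j ↔ ∃ z', Path G (u ++ v) y z' ∧ k = tp G b z' := by
    intro k
    rw [← hXij]
    show (∃ z', Path G ((u ++ v ++ t).take (2 * M - 2 * i.1)) y z' ∧ k = tp G b z') ↔ _
    rw [hti]
  obtain ⟨z₁, h1, h2⟩ := hz.split
  obtain ⟨z₂, h3, h4⟩ := h1.split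
  refine hF.no_loop hR (n := 2 * i.1 + 1) (m := 2 * j.1 - 2 * i.1) (w := v)
    (X := fun b' x => tp G b' x ∈ X j) ?_ ?_ ?_ hv ?_ ?_ ?_ ?_
    (b₀ := b) (x₀ := z₂) ((hXj _).2 ⟨z₂, h3, rfl⟩) ⟨z₁, h4⟩
  · rw [Nat.even_add_one]
    exact not_not.2 ⟨i.1, by ring⟩
  · exact ⟨j.1 - i.1, by omega⟩
  · omega
  · intro g hg b' x hx
    show tp G (g b') (g x) ∈ X j
    rw [tp_map hg]
    exact hx
  · intro b' x hx hbx
    obtain ⟨z', h5, h6⟩ := (hXj _).1 hx
    obtain ⟨g, hg, h7, h8⟩ := tp_eq.1 h6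
    refine hnF u (v ++ t) (by rw [List.append_assoc]) z' h5 ?_
    rw [← h7, ← h8]
    exact hF.inv g hg _ _ hbx
  · intro b' x z' hx hxz
    obtain ⟨z'', h5, h6⟩ := (hXj _).1 hx
    obtain ⟨g, hg, h7, h8⟩ := tp_eq.1 h6
    have h9 := hxz.map hg
    rw [h8] at h9
    refine (hXi _).2 ⟨g z', h5.app h9, ?_⟩
    rw [← h7, tp_map hg]
  · intro b' b'' x z' hx hz'
    obtain ⟨u', h5, h6⟩ := (hXj _).1 hx
    obtain ⟨v', h7, h8⟩ := (hXj _).1 hz'
    obtain ⟨g, hg, -, h9⟩ := tp_eq.1 h6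
    obtain ⟨g', hg', -, h10⟩ := tp_eq.1 h8
    obtain ⟨k, hk, h11⟩ := h5.ends h7
    refine ⟨g'⁻¹ * k * g, G.mul_mem (G.mul_mem (G.inv_mem hg') hk) hg, ?_⟩
    rw [Perm.mul_apply, Perm.mul_apply, h9, h11, ← h10]
    simp

end Pool.Agent.MP_f99268_lc
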