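import Pool.Agent.Lib.MP_f99268_lc.Final
import Pool.Agent.Lib.MP_f99268_lc_U.Mix

/-!
# The glueing chain from a far relation
-/

namespace Pool.Agent.MP_f99268_lc

open Equiv Classical

variable {D : Type} {G : Subgroup (Perm D)} {F : D → D → Prop}

/-- Uniqueness of the far position. -/
theorem FarG.orb (hF : FarG G F) {B : Finset D} {m : ℕ} {x y : Fin m → D} (h : Orb G ∅ x y)
    (hx : ∀ b ∈ B, ∀ i, F b (x i)) (hy : ∀ b ∈ B, ∀ i, F b (y i)) : Orb G B x y := by
  obtain ⟨g, hg, hgx⟩ := h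
  obtain ⟨k, hk, h1⟩ := hF.three B (Finset.univ.image x) g (st_le hg) (by
    intro b hb l hl
    obtain ⟨i, -, rfl⟩ := Finset.mem_image.1 hl
    exact ⟨hx b hb i, by rw [hgx]; exact hy b hb i⟩)
  refine ⟨k, hk, fun i => ?_⟩
  rw [h1 _ (Finset.mem_image_of_mem _ (Finset.mem_univ i)), hgx]

theorem FarG.exists_far [Countable D] (hF : FarG G F) (hO : Olig G) (B : Finset D) :
    ∃ e : D → D, Emb G e ∧ (∀ b ∈ B, ∀ x, F b (e x)) ∧ CanU G ∅ B e := by
  obtain ⟨e, he1, he2⟩ := exists_pos hO B (fun Y => ∀ b ∈ B, ∀ y ∈ Y, F b y)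
    (fun Y Y' hY h b hb y hy => h b hb y (hY hy))
    (by
      rintro g hg Y h b hb _ ⟨y, hy, rfl⟩
      have := hF.inv g (st_le hg) _ _ (h b hb y hy)
      rwa [(mem_st.1 hg).2 b hb] at this)
    (by
      intro A
      obtain ⟨g, hg, h⟩ := hF.one B A
      refine ⟨g, hg, ?_⟩
      rintro b hb _ ⟨a, ha, rfl⟩
      exact h b hb a ha)
  have he3 : ∀ b ∈ B, ∀ x, F b (e x) := fun b hb x => he2 {x} b hb (e x) ⟨x, by simp, rfl⟩
  refine ⟨e, he1, he3, fun m x y hxy => ?_⟩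
  exact hF.orb (((he1.orb x).symm.trans hxy).trans (he1.orb y)) (fun b hb i => he3 b hb _)
    (fun b hb i => he3 b hb _)

/-- The points between two sets. -/
def Bet (F : D → D → Prop) (T₁ T₂ : Finset D) : Set D :=
  {x | (∀ t ∈ T₂, F t x) ∧ ∀ t ∈ T₁, F x t}

/-- The points above two sets. -/
def Abv (F : D → D → Prop) (T₁ T₂ : Finset D) : Set D := {x | ∀ t ∈ T₁ ∪ T₂, F t x}

theorem FarG.exists_bet [Countable D] (hF : FarG G F) (hO : Olig G) {T₁ T₂ : Finset D}
    (hT : ∀ s ∈ T₂, ∀ t ∈ T₁, F s t) :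
    ∃ e : D → D, Emb G e ∧ (∀ x, e x ∈ Bet F T₁ T₂) ∧ CanU G ∅ (T₁ ∪ T₂) e := by
  obtain ⟨e, he1, he2⟩ := exists_pos hO (T₁ ∪ T₂) (fun Y => ∀ y ∈ Y, y ∈ Bet F T₁ T₂)
    (fun Y Y' hY h y hy => h y (hY hy))
    (by
      rintro g hg Y h _ ⟨y, hy, rfl⟩
      have hg1 := mem_st.1 hg
      refine ⟨fun t ht => ?_, fun t ht => ?_⟩
      · have := hF.inv g hg1.1 _ _ ((h y hy).1 t ht)
        rwa [hg1.2 t (Finset.mem_union_right _ ht)] at this
      · have := hF.inv g hg1.1 _ _ ((h y hy).2 t ht)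
        rwa [hg1.2 t (Finset.mem_union_left _ ht)] at this)
    (by
      intro A
      obtain ⟨h, hh, h1⟩ := hF.one A T₁
      obtain ⟨k, hk, h2⟩ := hF.keep hT (A.image (h⁻¹ : Perm D))
      have hk1 := mem_st.1 hk
      refine ⟨k * h⁻¹, G.mul_mem hk1.1 (G.inv_mem hh), ?_⟩
      rintro _ ⟨a, ha, rfl⟩
      refine ⟨fun t ht => ?_, fun t ht => ?_⟩
      · exact h2 t ht _ (Finset.mem_image_of_mem _ ha)
      · have e1 : k⁻¹ t = t := by rw [inv_apply_iff, hk1.2 t ht]
        rw [Perm.mul_apply, hF.shift hk1.1, e1, hF.shift (G.inv_mem hh), inv_inv]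
        exact h1 a ha t ht)
  have he3 : ∀ x, e x ∈ Bet F T₁ T₂ := fun x => he2 {x} (e x) ⟨x, by simp, rfl⟩
  refine ⟨e, he1, he3, fun m x y hxy => ?_⟩
  obtain ⟨g, hg, hgx⟩ := ((he1.orb x).symm.trans hxy).trans (he1.orb y)
  obtain ⟨h, hh, h1⟩ := hF.three' (Finset.univ.image fun i => e (x i)) T₁ g (st_le hg) (by
    intro b hb l hl
    obtain ⟨i, -, rfl⟩ := Finset.mem_image.1 hb
    exact ⟨(he3 _).2 l hl, by rw [hgx]; exact (he3 _).2 l hl⟩)
  have hh1 := mem_st.1 hh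
  have h1' : ∀ i, h (e (x i)) = e (y i) := fun i => by
    rw [h1 _ (Finset.mem_image_of_mem _ (Finset.mem_univ i)), hgx]
  obtain ⟨k, hk, h2⟩ := hF.three T₂ ((Finset.univ.image fun i => e (x i)) ∪ T₁) h hh1.1 (by
    intro b hb l hl
    rcases Finset.mem_union.1 hl with hl | hl
    · obtain ⟨i, -, rfl⟩ := Finset.mem_image.1 hl
      exact ⟨(he3 _).1 b hb, by rw [h1']; exact (he3 _).1 b hb⟩
    · exact ⟨hT b hb l hl, by rw [hh1.2 l hl]; exact hT b hb l hl⟩)
  have hk1 := mem_st.1 hk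
  refine ⟨k, ?_, fun i => ?_⟩
  · rw [mem_st]
    refine ⟨hk1.1, fun a ha => ?_⟩
    rcases Finset.mem_union.1 ha with ha | ha
    · rw [h2 a (Finset.mem_union_right _ ha), hh1.2 a ha]
    · exact hk1.2 a ha
  · rw [h2 _ (Finset.mem_union_left _ (Finset.mem_image_of_mem _ (Finset.mem_univ i))), h1']

theorem FarG.exists_glue [Countable D] (hF : FarG G F) (hO : Olig G) (hR : FR G Bool) :
    Nonempty (Glue G) := by
  obtain ⟨N, hN⟩ := hF.mixing hO hR
  obtain ⟨T, hT⟩ := hO ∅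
  obtain ⟨h₀, hh₀, h1⟩ := hF.one T T
  set T₁ : Finset D := T.image h₀ with hT₁
  have hTT : ∀ s ∈ T, ∀ t ∈ T₁, F s t := by
    intro s hs t ht
    obtain ⟨t', ht', rfl⟩ := Finset.mem_image.1 ht
    exact h1 s hs t' ht'
  obtain ⟨eP, hP1, hP2, hP3⟩ := hF.exists_bet hO hTT
  obtain ⟨eQ, hQ1, hQ2, hQ3⟩ := hF.exists_far hO (T₁ ∪ T)
  choose t ht1 ht2 ht3 using fun B => hF.exists_far hO B
  have hLay : ∀ x ∈ Bet F T₁ T, ∀ y ∈ Abv F T₁ T, Lay G F x y := by
    intro x hx y hy p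
    obtain ⟨g, hg, hgp⟩ := hT p
    rw [st_empty] at hg
    have h2 : h₀ (g p) ∈ T₁ := Finset.mem_image_of_mem _ hgp
    exact ⟨⟨h₀ * g, G.mul_mem hh₀ hg, hx.2 _ h2, hy _ (Finset.mem_union_left _ h2)⟩,
      ⟨g, hg, hx.1 _ hgp, hy _ (Finset.mem_union_right _ hgp)⟩⟩
  have hBet : ∀ g ∈ st G (T₁ ∪ T), ∀ x ∈ Bet F T₁ T, g x ∈ Bet F T₁ T := by
    intro g hg x hx
    have hg1 := mem_st.1 hg
    refine ⟨fun t ht => ?_, fun t ht => ?_⟩
    · have := hF.inv g hg1.1 _ _ (hx.1 t ht)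
      rwa [hg1.2 t (Finset.mem_union_right _ ht)] at this
    · have := hF.inv g hg1.1 _ _ (hx.2 t ht)
      rwa [hg1.2 t (Finset.mem_union_left _ ht)] at this
  have hAbv : ∀ g ∈ st G (T₁ ∪ T), ∀ x ∈ Abv F T₁ T, g x ∈ Abv F T₁ T := by
    intro g hg x hx t ht
    have hg1 := mem_st.1 hg
    have := hF.inv g hg1.1 _ _ (hx t ht)
    rwa [hg1.2 t ht] at this
  let ev : ℕ → Prop := fun j => Even (N - j - 1)
  refine ⟨{
    N := N
    c := fun _ => T₁ ∪ T
    P := fun j => if ev j then Bet F T₁ T else Abv F T₁ T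
    Q := fun j => if ev j then Abv F T₁ T else Bet F T₁ T
    hP := ?_
    hQ := ?_
    uP := fun j => if ev j then eP else eQ
    uP_emb := ?_
    uP_can := ?_
    uP_mem := ?_
    uQ := fun j => if ev j then eQ else eP
    uQ_emb := ?_
    uQ_can := ?_
    uQ_mem := ?_
    Z := fun j B Y => ∀ b ∈ B, ∀ y ∈ Y, Un G F (Ks G F) (N - j) b y
    Z_anti := ?_
    Z_zero := ?_
    step := ?_
    t := t
    t_emb := ht1
    t_can := ht3
    final := ?_ }⟩
  · intro j g hg x hx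
    by_cases h : ev j
    · simp only [if_pos h] at hx ⊢
      exact hBet g hg x hx
    · simp only [if_neg h] at hx ⊢
      exact hAbv g hg x hx
  · intro j g hg x hx
    by_cases h : ev j
    · simp only [if_pos h] at hx ⊢
      exact hAbv g hg x hx
    · simp only [if_neg h] at hx ⊢
      exact hBet g hg x hx
  · intro j
    by_cases h : ev j
    · simp only [if_pos h]
      exact hP1
    · simp only [if_neg h]
      exact hQ1
  · intro j
    by_cases h : ev j
    · simp only [if_pos h]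
      exact hP3
    · simp only [if_neg h]
      exact hQ3
  · intro j x
    by_cases h : ev j
    · simp only [if_pos h]
      exact hP2 x
    · simp only [if_neg h]
      exact fun t ht => hQ2 t ht x
  · intro j
    by_cases h : ev j
    · simp only [if_pos h]
      exact hQ1
    · simp only [if_neg h]
      exact hP1
  · intro j
    by_cases h : ev j
    · simp only [if_pos h]
      exact hQ3
    · simp only [if_neg h]
      exact hP3
  · intro j x
    by_cases h : ev j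
    · simp only [if_pos h]
      exact fun t ht => hQ2 t ht x
    · simp only [if_neg h]
      exact hP2 x
  · intro j B Y Y' hY h b hb y hy
    exact h b hb y (hY hy)
  · intro B Y _ b _ y _
    exact hN b y
  · intro j hj A B τ hτ hZ
    obtain ⟨n, hn⟩ : ∃ n, n = N - j - 1 := ⟨_, rfl⟩
    have e1 : N - j = n + 1 := by omega
    have e2 : N - (j + 1) = n := by omega
    have hev : ev j ↔ Even n := by rw [hn]
    have hZ' := fun b hb y hy => (congrArg (fun i => Un G F (Ks G F) i b y) e1).mp (hZ b hb y hy)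
    obtain ⟨h, hh, h2⟩ := hF.glue_step hO (K := Ks G F) (n := n) B _
      ((A.filter (· ∈ (if ev j then Abv F T₁ T else Bet F T₁ T))).image τ) (by
        intro a' ha' c' hc'
        obtain ⟨a, ha, rfl⟩ := Finset.mem_image.1 ha'
        obtain ⟨c, hc, rfl⟩ := Finset.mem_image.1 hc'
        rw [Finset.mem_filter] at ha hc
        rw [tp_map hτ]
        by_cases h : ev j
        · rw [if_pos h] at ha hc
          exact (Ks.even hF (hev.1 h)).2 (hLay a ha.2 c hc.2)
        · rw [if_neg h] at ha hc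
          exact (Ks.odd hF (fun h' => h (hev.2 h'))).2 (hLay c hc.2 a ha.2)) hZ'
    refine ⟨h * τ, G.mul_mem (st_le hh) hτ, fun a ha haP => ?_, ?_⟩
    · rw [Perm.mul_apply]
      exact (mem_st.1 hh).2 _ (Finset.mem_image_of_mem _ (Finset.mem_filter.2 ⟨ha, haP⟩))
    · intro b hb y hy
      obtain ⟨c, hc, rfl⟩ := Finset.mem_image.1 hy
      rw [e2]
      exact h2 b hb (τ c) (Finset.mem_image_of_mem _ hc)
  · intro B m x σ hσ hZ
    refine hF.orb ?_ (fun b hb i => ht2 B b hb _) (fun b hb i => ?_)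
    · exact ((ht1 B).orb x).symm.trans (Orb.of_mem (by rwa [st_empty]) x)
    · have h2 := hZ b hb (σ (x i)) (Finset.mem_image_of_mem _ (Finset.mem_univ i))
      rw [Nat.sub_self] at h2
      obtain ⟨z, h3, h4⟩ := h2 [] rfl ⟨_, rfl⟩
      have h5 : σ (x i) = z := h3
      rw [h5]
      exact h4

/-- The theorem for structures with a far relation. -/
theorem far_main {ι : Type} {ar : ι → ℕ} [Countable D] [Finite ι] {Δ : Str ι ar D}
    (hlin : IsStrictTotalOrder D Δ.lt) (hΔ : Homogeneous Δ) (hR : RamseyProperty Δ)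
    (hF : FarG (autG Δ) F) {Γ : (n : ℕ) → Set (Set (Fin n → D))}
    (hΓ : IsReduct Δ Γ) (hno : ¬ HasHomToProjections (Pol Γ)) :
    ∃ (n : ℕ) (c : Fin n → D), ∀ m, ¬ HasHomToProjections (TypeClone Δ c (Pol Γ) m) := by
  obtain ⟨gl⟩ := hF.exists_glue (olig_autG hlin hΔ) (fr_autG hlin hΔ hR)
  exact of_glue hlin hΔ hR gl hΓ hno

end Pool.Agent.MP_f99268_lc
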