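import Pool.Agent.Lib.MP_f99268_lc_U.Defs
import Pool.Agent.Lib.MP_f99268_lc_U.Glu

/-!
# Binary structures with bounds of size at most three
-/

namespace Pool.Agent.MP_f99268_lc

open Equiv Classical

variable {ι : Type} {ar : ι → ℕ} {D : Type}

theorem tp_swap {G : Subgroup (Perm D)} {x y x' y' : D} (h : tp G x y = tp G x' y') :
    tp G y x = tp G y' x' := by
  obtain ⟨g, hg, h1, h2⟩ := tp_eq.1 h
  exact tp_eq.2 ⟨g, hg, h2, h1⟩

theorem tp_fst {G : Subgroup (Perm D)} {x y x' y' : D} (h : tp G x y = tp G x' y') :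
    tp G x x = tp G x' x' := by
  obtain ⟨g, hg, h1, h2⟩ := tp_eq.1 h
  exact tp_eq.2 ⟨g, hg, h1, h1⟩

theorem tp_snd {G : Subgroup (Perm D)} {x y x' y' : D} (h : tp G x y = tp G x' y') :
    tp G y y = tp G y' y' := by
  obtain ⟨g, hg, h1, h2⟩ := tp_eq.1 h
  exact tp_eq.2 ⟨g, hg, h2, h2⟩

theorem tp_diag {G : Subgroup (Perm D)} {x y u : D} (h : tp G x y = tp G u u) : x = y := by
  obtain ⟨g, hg, h1, h2⟩ := tp_eq.1 h
  exact g.injective (h1.trans h2.symm)

/-- In a binary structure the orbit of a tuple is determined by the orbits of its pairs. -/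
theorem orb_pairs {Δ : Str ι ar D} (hΔ : Homogeneous Δ) (har : ∀ i, ar i ≤ 2) {α : Type}
    [Finite α] (x y : α → D)
    (h : ∀ a b, tp (autG Δ) (x a) (x b) = tp (autG Δ) (y a) (y b)) :
    ∃ g ∈ autG Δ, ∀ a, g (x a) = y a := by
  obtain ⟨g, hg, h1⟩ := orb_local hΔ har le_rfl x y (fun s => by
    obtain ⟨g, hg, h1, h2⟩ := tp_eq.1 (h (s 0) (s 1))
    refine ⟨g, by rwa [st_empty], fun i => ?_⟩
    fin_cases i
    · exact h1
    · exact h2)
  exact ⟨g, st_le hg, h1⟩

theorem exists_three {M : Type} [Finite M] [Nonempty M] {S : Set M} (hS : S.ncard ≤ 3) :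
    ∃ a b c, S ⊆ {a, b, c} := by
  have hfin : S.Finite := S.toFinite
  rcases (by omega : S.ncard = 0 ∨ S.ncard = 1 ∨ S.ncard = 2 ∨ S.ncard = 3) with h | h | h | h
  · rw [Set.ncard_eq_zero hfin] at h
    obtain ⟨a⟩ := (inferInstance : Nonempty M)
    exact ⟨a, a, a, by simp [h]⟩
  · obtain ⟨a, rfl⟩ := Set.ncard_eq_one.1 h
    exact ⟨a, a, a, by simp⟩
  · obtain ⟨a, b, -, rfl⟩ := Set.ncard_eq_two.1 h
    exact ⟨a, b, b, by simp⟩
  · obtain ⟨a, b, c, -, -, -, rfl⟩ := Set.ncard_eq_three.1 h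
    exact ⟨a, b, c, subset_rfl⟩

/-- A finite network of types of pairs is realised if its triangles are. -/
theorem net {Δ : Str ι ar D} (hΔ : Homogeneous Δ) (har : ∀ i, ar i ≤ 2)
    (h3 : BoundedByThree Δ) {M : Type} [Finite M] [Nonempty M] (P : M → M → PT (autG Δ))
    (hd : ∀ a b u, P a b = tp (autG Δ) u u → a = b)
    (h : ∀ a b c : M, ∃ f : M → D, ∀ x ∈ ({a, b, c} : Set M), ∀ y ∈ ({a, b, c} : Set M),
      tp (autG Δ) (f x) (f y) = P x y) :
    ∃ f : M → D, ∀ a b, tp (autG Δ) (f a) (f b) = P a b := by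
  let m : Str ι ar M :=
    { lt := fun a b => ∃ u v, tp (autG Δ) u v = P a b ∧ Δ.lt u v
      rel := fun i t => ∃ φ : Fin (ar i) → D,
        (∀ k k', tp (autG Δ) (φ k) (φ k') = P (t k) (t k')) ∧ Δ.rel i φ }
  have hm : ∀ (S : Set M) (f : S → D), (∀ x y, tp (autG Δ) (f x) (f y) = P x y) →
      IsEmb (m.on S) Δ f := by
    intro S f hf
    refine ⟨?_, ?_, ?_⟩
    · intro a b hab
      have h1 := hf a b
      rw [hab] at h1
      exact Subtype.ext (hd _ _ _ h1.symm)
    · intro x y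
      constructor
      · exact fun h1 => ⟨_, _, hf x y, h1⟩
      · rintro ⟨u, v, h1, h2⟩
        obtain ⟨g, hg, h4, h5⟩ := tp_eq.1 (h1.trans (hf x y).symm)
        rw [← h4, ← h5]
        exact (hg.2.1 u v).2 h2
    · intro i t
      constructor
      · exact fun h1 => ⟨fun k => f (t k), fun k k' => hf _ _, h1⟩
      · rintro ⟨φ, h1, h2⟩
        obtain ⟨g, hg, h4⟩ := orb_pairs hΔ har φ (fun k => f (t k))
          (fun k k' => (h1 k k').trans (hf _ _).symm)
        have h5 := (hg.2.2 i φ).2 h2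
        have e : (fun k => g (φ k)) = fun k => f (t k) := by
          funext k
          exact h4 k
        rwa [e] at h5
  obtain ⟨f, hf⟩ := h3 M inferInstance m (by
    intro S hS
    obtain ⟨a, b, c, habc⟩ := exists_three hS
    obtain ⟨f, hf⟩ := h a b c
    exact ⟨fun x => f x, hm S _ (fun x y => hf x (habc x.2) y (habc y.2))⟩)
  refine ⟨f, fun a b => ?_⟩
  obtain ⟨φ, hφ⟩ := h a b b
  have hφ' := hm {a, b, b} (fun x => φ x) (fun x y => hφ x x.2 y y.2)
  have ha : a ∈ ({a, b, b} : Set M) := by simp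
  have hb : b ∈ ({a, b, b} : Set M) := by simp
  rw [← hφ a ha b hb]
  -- the map `φ x ↦ f x`
  let ψ : D → D := fun d => if hex : ∃ x : ({a, b, b} : Set M), φ x = d then f hex.choose else d
  have hψ : ∀ x : ({a, b, b} : Set M), ψ (φ x) = f x := by
    intro x
    have hex : ∃ x' : ({a, b, b} : Set M), φ x' = φ x := ⟨x, rfl⟩
    have e : ψ (φ x) = f hex.choose := dif_pos hex
    rw [e]
    have := hφ'.1 hex.choose_spec
    rw [this]
  obtain ⟨g, hg, hgψ⟩ := hΔ.ext (S := φ '' {a, b, b}) (Set.toFinite _) (f := ψ) (by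
    refine ⟨?_, ?_, ?_⟩
    · rintro _ ⟨x, hx, rfl⟩ _ ⟨y, hy, rfl⟩ hxy
      rw [hψ ⟨x, hx⟩, hψ ⟨y, hy⟩] at hxy
      exact congrArg φ (hf.1 hxy)
    · rintro _ ⟨x, hx, rfl⟩ _ ⟨y, hy, rfl⟩
      rw [hψ ⟨x, hx⟩, hψ ⟨y, hy⟩, hf.2.1]
      exact (hφ'.2.1 ⟨x, hx⟩ ⟨y, hy⟩).symm
    · intro i t ht
      choose s hs hst using ht
      have e1 : (fun k => ψ (t k)) = fun k => f (s k) := by
        funext k
        rw [← hst k]
        exact hψ ⟨s k, hs k⟩
      have e2 : t = fun k => φ (s k) := by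
        funext k
        exact (hst k).symm
      rw [e1, hf.2.2]
      have h6 := (hφ'.2.2 i (fun k => ⟨s k, hs k⟩)).symm
      refine h6.trans ?_
      rw [e2])
  refine (tp_eq.2 ⟨g, hg, ?_, ?_⟩).symm
  · rw [hgψ _ ⟨a, ha, rfl⟩]
    exact hψ ⟨a, ha⟩
  · rw [hgψ _ ⟨b, hb, rfl⟩]
    exact hψ ⟨b, hb⟩

/-- One-point extensions. -/
theorem ext_one {Δ : Str ι ar D} (hΔ : Homogeneous Δ) (har : ∀ i, ar i ≤ 2)
    (h3 : BoundedByThree Δ) (X : Finset D) (l : D) (v : D → D)
    (h : ∀ x ∈ X, ∀ y ∈ X, ∃ z, (∃ g ∈ autG Δ, g l = z) ∧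
      tp (autG Δ) x z = tp (autG Δ) x (v x) ∧ tp (autG Δ) y z = tp (autG Δ) y (v y)) :
    ∃ d, (∃ g ∈ autG Δ, g l = d) ∧ ∀ x ∈ X, tp (autG Δ) x d = tp (autG Δ) x (v x) := by
  by_cases hv : ∃ x ∈ X, v x = x
  · obtain ⟨x, hx, hvx⟩ := hv
    obtain ⟨z, h1, h2, -⟩ := h x hx x hx
    rw [hvx] at h2
    have h4 : x = z := tp_diag h2
    rw [← h4] at h1
    refine ⟨x, h1, fun y hy => ?_⟩
    obtain ⟨z', -, h5, h6⟩ := h x hx y hy
    rw [hvx] at h5
    have h7 : x = z' := tp_diag h5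
    rw [← h7] at h6
    exact h6
  push Not at hv
  let M := Option {x // x ∈ X}
  let P : M → M → PT (autG Δ) := fun a b =>
    match a, b with
    | none, none => tp (autG Δ) l l
    | none, some y => tp (autG Δ) (v y) y
    | some x, none => tp (autG Δ) x (v x)
    | some x, some y => tp (autG Δ) x y
  have hz : ∀ x ∈ X, ∀ y ∈ X, ∃ z, (∃ g ∈ autG Δ, g l = z) ∧
      tp (autG Δ) x z = tp (autG Δ) x (v x) ∧ tp (autG Δ) y z = tp (autG Δ) y (v y) := h
  have hfun : ∀ z : D, (∃ g ∈ autG Δ, g l = z) → ∀ S : Set M,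
      (none ∈ S → ∀ x : {x // x ∈ X}, some x ∈ S →
        tp (autG Δ) x.1 z = tp (autG Δ) x.1 (v x)) →
      ∀ x ∈ S, ∀ y ∈ S, tp (autG Δ) ((fun m : M => m.elim z (fun x => x.1)) x)
        ((fun m : M => m.elim z (fun x => x.1)) y) = P x y := by
    rintro z ⟨g, hg, rfl⟩ S hS x hx y hy
    cases x with
    | none =>
      cases y with
      | none => exact tp_map hg l l
      | some y => exact tp_swap (hS hx y hy)
    | some x =>
      cases y with
      | none => exact hS hy x hx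
      | some y => rfl
  have hd : ∀ a b u, P a b = tp (autG Δ) u u → a = b := by
    intro a b u hab
    cases a with
    | none =>
      cases b with
      | none => rfl
      | some y =>
        exact absurd (tp_diag hab) (hv y.1 y.2)
    | some x =>
      cases b with
      | none =>
        exact absurd (tp_diag hab).symm (hv x.1 x.2)
      | some y =>
        congr 1
        exact Subtype.ext (tp_diag hab)
  have htri : ∀ a b c : M, ∃ f : M → D, ∀ x ∈ ({a, b, c} : Set M), ∀ y ∈ ({a, b, c} : Set M),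
      tp (autG Δ) (f x) (f y) = P x y := by
    intro a b c
    have hone : ∀ x y : {x // x ∈ X}, ∃ z, (∃ g ∈ autG Δ, g l = z) ∧
        ∀ S : Set M, S ⊆ {none, some x, some y} → none ∈ S → ∀ w : {x // x ∈ X}, some w ∈ S →
          tp (autG Δ) w.1 z = tp (autG Δ) w.1 (v w) := by
      intro x y
      obtain ⟨z, h1, h2, h4⟩ := hz x.1 x.2 y.1 y.2
      refine ⟨z, h1, fun S hS _ w hw => ?_⟩
      rcases hS hw with h5 | h5 | h5
      · exact absurd h5 (by simp)
      · have : w = x := Option.some.inj h5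
        rw [this]
        exact h2
      · have : w = y := Option.some.inj h5
        rw [this]
        exact h4
    rcases a with _ | a <;> rcases b with _ | b <;> rcases c with _ | c
    · refine ⟨_, hfun l ⟨1, (autG Δ).one_mem, rfl⟩ _ ?_⟩
      intro _ x hx
      simp at hx
    · obtain ⟨z, h1, h2⟩ := hone c c
      refine ⟨_, hfun z h1 _ (h2 _ ?_)⟩
      intro x hx
      simpa using hx
    · obtain ⟨z, h1, h2⟩ := hone b b
      refine ⟨_, hfun z h1 _ (h2 _ ?_)⟩
      rintro x (hx | hx | hx)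
      · exact Or.inl hx
      · exact Or.inr (Or.inl hx)
      · exact Or.inl hx
    · obtain ⟨z, h1, h2⟩ := hone b c
      exact ⟨_, hfun z h1 _ (h2 _ subset_rfl)⟩
    · obtain ⟨z, h1, h2⟩ := hone a a
      refine ⟨_, hfun z h1 _ (h2 _ ?_)⟩
      rintro x (hx | hx | hx)
      · exact Or.inr (Or.inl hx)
      · exact Or.inl hx
      · exact Or.inl hx
    · obtain ⟨z, h1, h2⟩ := hone a c
      refine ⟨_, hfun z h1 _ (h2 _ ?_)⟩
      rintro x (hx | hx | hx)
      · exact Or.inr (Or.inl hx)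
      · exact Or.inl hx
      · exact Or.inr (Or.inr hx)
    · obtain ⟨z, h1, h2⟩ := hone a b
      refine ⟨_, hfun z h1 _ (h2 _ ?_)⟩
      rintro x (hx | hx | hx)
      · exact Or.inr (Or.inl hx)
      · exact Or.inr (Or.inr hx)
      · exact Or.inl hx
    · refine ⟨_, hfun l ⟨1, (autG Δ).one_mem, rfl⟩ _ ?_⟩
      intro h0
      rcases h0 with h0 | h0 | h0
      · exact absurd h0 (by simp)
      · exact absurd h0 (by simp)
      · exact absurd h0 (by simp)
  obtain ⟨f, hf⟩ := net hΔ har h3 (M := M) P hd htri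
  -- move `f` to the identity on `X`
  obtain ⟨g, hg, h1⟩ := orb_pairs hΔ har (fun x : {x // x ∈ X} => f (some x))
    (fun x => x.1) (fun a b => hf (some a) (some b))
  refine ⟨g (f none), ?_, fun x hx => ?_⟩
  · obtain ⟨g', hg', h2, -⟩ := tp_eq.1 (hf none none).symm
    exact ⟨g * g', (autG Δ).mul_mem hg hg', by rw [Perm.mul_apply, h2]⟩
  · have h2 := hf (some ⟨x, hx⟩) none
    rw [← tp_map hg, h1 ⟨x, hx⟩] at h2
    exact h2

end Pool.Agent.MP_f99268_lc
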