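import Pool.Agent.Lib.MP_f99268_lc.Defs

/-!
# Structures whose bounds have size at most three
-/

namespace Pool.Agent.MP_f99268_lc

variable {ι : Type} {ar : ι → ℕ} {D : Type}

/-- All bounds have size at most three: a finite structure all of whose substructures with at most
three elements embed into `Δ` embeds into `Δ`. -/
def BoundedByThree (Δ : Str ι ar D) : Prop :=
  ∀ (M : Type) (_ : Finite M) (m : Str ι ar M),
    (∀ S : Set M, S.ncard ≤ 3 → ∃ f : S → D, IsEmb (m.on S) Δ f) → ∃ f : M → D, IsEmb m Δ f

end Pool.Agent.MP_f99268_lc
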