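import Pool.Agent.Lib.MP_f99268_lc_U.Bin

/-!
# Far relations of binary structures with bounds of size at most three
-/

namespace Pool.Agent.MP_f99268_lc

open Equiv Classical

/-- A canonical position of two copies. -/
theorem exists_can {D : Type} {G : Subgroup (Perm D)} (hR : FR G Bool) (hO : Olig G) :
    ∃ F : D → D → Prop, (∀ g ∈ G, ∀ x y, F x y → F (g x) (g y)) ∧
      (∀ x x' z, ∃ g ∈ G, F x (g z) ∧ F x' (g z)) ∧
      (∀ x z z', ∃ g ∈ G, F (g x) z ∧ F (g x) z') ∧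
      ∀ x y x' y', F x y → F x' y' → (∃ g ∈ G, g x = x') → (∃ g ∈ G, g y = y') →
        tp G x y = tp G x' y' := by
  obtain ⟨T, hT⟩ := hO.fin ∅ 2
  set A : Finset D := T.biUnion fun t => Finset.univ.image t with hA
  have hAT : ∀ x x' : D, ∃ g ∈ G, g x ∈ A ∧ g x' ∈ A := by
    intro x x'
    obtain ⟨g, hg, h⟩ := hT ![x, x']
    refine ⟨g, st_le hg, ?_, ?_⟩
    · rw [hA, Finset.mem_biUnion]
      exact ⟨_, h, Finset.mem_image.2 ⟨0, Finset.mem_univ _, rfl⟩⟩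
    · rw [hA, Finset.mem_biUnion]
      exact ⟨_, h, Finset.mem_image.2 ⟨1, Finset.mem_univ _, rfl⟩⟩
  obtain ⟨β, hβ, hcan⟩ := canon_finite hR hO ∅ ∅ Bool 2
    (fun i φ => if i = true then φ 1 else φ 0) A
  have hβ' : ∀ j, β j ∈ G := fun j => st_le (hβ j)
  have key : ∀ a a' b b', a ∈ A → a' ∈ A → b ∈ A → b' ∈ A → (∃ g ∈ G, g a = b) →
      (∃ g ∈ G, g a' = b') → tp G (β 0 a) (β 1 a') = tp G (β 0 b) (β 1 b') := by
    rintro a a' b b' ha ha' hb hb' ⟨g, hg, h1⟩ ⟨g', hg', h2⟩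
    obtain ⟨k, hk, h3⟩ := hcan 1 ![fun _ => a, fun _ => a'] ![fun _ => b, fun _ => b'] (by
      intro j l
      fin_cases j
      · exact ha
      · exact ha') (by
      intro j l
      fin_cases j
      · exact hb
      · exact hb') (by
      intro j
      fin_cases j
      · exact ⟨g, by rwa [st_empty], fun _ => h1⟩
      · exact ⟨g', by rwa [st_empty], fun _ => h2⟩)
    have h4 := h3 (false, 0)
    have h5 := h3 (true, 0)
    simp at h4 h5
    exact tp_eq.2 ⟨k, st_le hk, h4, h5⟩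
  refine ⟨fun x z => ∃ a ∈ A, ∃ a' ∈ A, tp G x z = tp G (β 0 a) (β 1 a'), ?_, ?_, ?_, ?_⟩
  · rintro g hg x y ⟨a, ha, a', ha', h⟩
    exact ⟨a, ha, a', ha', by rw [tp_map hg, h]⟩
  · intro x x' z
    obtain ⟨g, hg, h1, h2⟩ := hAT x x'
    obtain ⟨g', hg', h3, -⟩ := hAT z z
    refine ⟨(β 0 * g)⁻¹ * (β 1 * g'), G.mul_mem (G.inv_mem (G.mul_mem (hβ' 0) hg))
      (G.mul_mem (hβ' 1) hg'), ⟨g x, h1, g' z, h3, ?_⟩, ⟨g x', h2, g' z, h3, ?_⟩⟩
    · refine tp_eq.2 ⟨β 0 * g, G.mul_mem (hβ' 0) hg, rfl, ?_⟩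
      simp
    · refine tp_eq.2 ⟨β 0 * g, G.mul_mem (hβ' 0) hg, rfl, ?_⟩
      simp
  · intro x z z'
    obtain ⟨g, hg, h1, h2⟩ := hAT z z'
    obtain ⟨g', hg', h3, -⟩ := hAT x x
    refine ⟨(β 1 * g)⁻¹ * (β 0 * g'), G.mul_mem (G.inv_mem (G.mul_mem (hβ' 1) hg))
      (G.mul_mem (hβ' 0) hg'), ⟨g' x, h3, g z, h1, ?_⟩, ⟨g' x, h3, g z', h2, ?_⟩⟩
    · refine tp_eq.2 ⟨β 1 * g, G.mul_mem (hβ' 1) hg, ?_, rfl⟩
      simp
    · refine tp_eq.2 ⟨β 1 * g, G.mul_mem (hβ' 1) hg, ?_, rfl⟩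
      simp
  · rintro x y x' y' ⟨a, ha, a', ha', h⟩ ⟨b, hb, b', hb', h'⟩ ⟨g, hg, h1⟩ ⟨g', hg', h2⟩
    rw [h, h']
    obtain ⟨k, hk, h3, h4⟩ := tp_eq.1 h
    obtain ⟨k', hk', h5, h6⟩ := tp_eq.1 h'
    refine key a a' b b' ha ha' hb hb'
      ⟨(β 0)⁻¹ * k' * g * k⁻¹ * β 0, ?_, ?_⟩ ⟨(β 1)⁻¹ * k' * g' * k⁻¹ * β 1, ?_, ?_⟩
    · exact G.mul_mem (G.mul_mem (G.mul_mem (G.mul_mem (G.inv_mem (hβ' 0)) hk') hg)
        (G.inv_mem hk)) (hβ' 0)
    · simp only [Perm.mul_apply]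
      rw [← h3]
      have e : k⁻¹ (k x) = x := by simp
      rw [e, h1, h5]
      simp
    · exact G.mul_mem (G.mul_mem (G.mul_mem (G.mul_mem (G.inv_mem (hβ' 1)) hk') hg')
        (G.inv_mem hk)) (hβ' 1)
    · simp only [Perm.mul_apply]
      rw [← h4]
      have e : k⁻¹ (k y) = y := by simp
      rw [e, h2, h6]
      simp

variable {ι : Type} {ar : ι → ℕ} {D : Type}

/-- The far relation. -/
theorem exists_farG [Finite ι] {Δ : Str ι ar D} (hlin : IsStrictTotalOrder D Δ.lt)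
    (hΔ : Homogeneous Δ) (hR : RamseyProperty Δ) (har : ∀ i, ar i ≤ 2)
    (h3 : BoundedByThree Δ) : ∃ F : D → D → Prop, FarG (autG Δ) F := by
  set G := autG Δ with hG
  obtain ⟨F, hinv, hFa, hFb, hFc⟩ := exists_can (fr_autG hlin hΔ hR) (olig_autG hlin hΔ)
  have hinv' : ∀ g ∈ G, ∀ x y, F (g x) (g y) → F x y := by
    intro g hg x y h
    have := hinv g⁻¹ (G.inv_mem hg) _ _ h
    simpa using this
  have htp : ∀ x y x' y', tp G x y = tp G x' y' → F x y → F x' y' := by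
    intro x y x' y' h hxy
    obtain ⟨g, hg, rfl, rfl⟩ := tp_eq.1 h
    exact hinv g hg _ _ hxy
  -- one point far from one point
  have hkeep : ∀ b y l, F b y → ∃ k ∈ st G {y}, F b (k l) := by
    intro b y l hby
    obtain ⟨g, hg, h1, h2⟩ := hFb b y l
    have h4 := hFc _ _ _ _ h1 hby ⟨g⁻¹, G.inv_mem hg, by simp⟩ ⟨1, G.one_mem, rfl⟩
    obtain ⟨k, hk, h5, h6⟩ := tp_eq.1 h4
    refine ⟨k, mem_st1.2 ⟨hk, h6⟩, ?_⟩
    have := hinv k hk _ _ h2
    rwa [h5] at this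
  -- one point far from a set
  have hone : ∀ (B Y : Finset D) (l : D), (∀ b ∈ B, ∀ y ∈ Y, ∃ h ∈ st G {y}, F b (h l)) →
      ∃ h ∈ st G Y, ∀ b ∈ B, F b (h l) := by
    intro B Y l hBY
    choose e he heF using fun x => hFa x x l
    have hvF : ∀ x z, (∃ g ∈ G, g l = z) → F x z → tp G x z = tp G x (e x l) := by
      rintro x z ⟨g, hg, rfl⟩ hxz
      exact hFc _ _ _ _ hxz (heF x).1 ⟨1, G.one_mem, rfl⟩
        ⟨e x * g⁻¹, G.mul_mem (he x) (G.inv_mem hg), by simp⟩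
    obtain ⟨d, ⟨g, hg, hgd⟩, hd⟩ := ext_one hΔ har h3 (Y ∪ B) l
      (fun x => if x ∈ Y then l else e x l) (by
      have hcross : ∀ x ∈ Y, ∀ y ∈ B, ∃ z, (∃ g ∈ autG Δ, g l = z) ∧
          tp G x z = tp G x l ∧ tp G y z = tp G y (e y l) := by
        intro x hx y hy
        obtain ⟨h, hh, h1⟩ := hBY y hy x hx
        have hh1 := mem_st1.1 hh
        refine ⟨h l, ⟨h, hh1.1, rfl⟩, ?_, hvF _ _ ⟨h, hh1.1, rfl⟩ h1⟩
        exact (tp_left.2 ⟨h, hh, rfl⟩).symm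
      intro x hx y hy
      rw [Finset.mem_union] at hx hy
      by_cases hxY : x ∈ Y
      · by_cases hyY : y ∈ Y
        · simp only [if_pos hxY, if_pos hyY]
          exact ⟨l, ⟨1, G.one_mem, rfl⟩, rfl, rfl⟩
        · simp only [if_pos hxY, if_neg hyY]
          exact hcross x hxY y (hy.resolve_left hyY)
      · by_cases hyY : y ∈ Y
        · simp only [if_neg hxY, if_pos hyY]
          obtain ⟨z, h1, h2, h4⟩ := hcross y hyY x (hx.resolve_left hxY)
          exact ⟨z, h1, h4, h2⟩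
        · simp only [if_neg hxY, if_neg hyY]
          obtain ⟨g, hg, h1, h2⟩ := hFa x y l
          exact ⟨g l, ⟨g, hg, rfl⟩, hvF _ _ ⟨g, hg, rfl⟩ h1, hvF _ _ ⟨g, hg, rfl⟩ h2⟩)
    have hdY : ∀ y ∈ Y, tp G y d = tp G y l := by
      intro y hy
      have := hd y (Finset.mem_union_left _ hy)
      simpa only [if_pos hy] using this
    have hdB : ∀ b ∈ B, F b d := by
      intro b hb
      by_cases hbY : b ∈ Y
      · obtain ⟨h, hh, h1⟩ := hBY b hb b hbY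
        refine htp b (h l) b d ?_ h1
        rw [hdY b hbY]
        exact (tp_left.2 ⟨h, hh, rfl⟩).symm
      · have := hd b (Finset.mem_union_right _ hb)
        simp only [if_neg hbY] at this
        exact htp b (e b l) b d this.symm (heF b).1
    obtain ⟨k, hk, h1⟩ := orb_pairs hΔ har
      (fun a : Option {y // y ∈ Y} => a.elim l (fun y => y.1))
      (fun a : Option {y // y ∈ Y} => a.elim d (fun y => y.1)) (by
      intro a b
      rcases a with _ | a <;> rcases b with _ | b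
      · rw [← hgd]
        exact (tp_map hg l l).symm
      · exact tp_swap (hdY b.1 b.2).symm
      · exact (hdY a.1 a.2).symm
      · rfl)
    refine ⟨k, mem_st.2 ⟨hk, fun y hy => h1 (some ⟨y, hy⟩)⟩, fun b hb => ?_⟩
    have h2 : k l = d := h1 none
    rw [h2]
    exact hdB b hb
  refine ⟨F, hinv, ?_, ?_⟩
  · intro B Y L hBY
    suffices hmain : ∀ (L Y : Finset D), ∀ k ∈ G,
        (∀ b ∈ B, ∀ y ∈ Y, ∀ l ∈ L, ∃ h ∈ st G {y}, F b (h (k l))) →
        ∃ h ∈ st G Y, ∀ b ∈ B, ∀ l ∈ L, F b (h (k l)) by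
      exact hmain L Y 1 G.one_mem hBY
    intro L
    induction L using Finset.induction_on with
    | empty => exact fun Y k _ _ => ⟨1, Subgroup.one_mem _, by simp⟩
    | insert l L hl ih =>
      intro Y k hk h
      obtain ⟨h0, hh0, h1⟩ := hone B Y (k l) (fun b hb y hy =>
        h b hb y hy l (Finset.mem_insert_self _ _))
      have hh0' := mem_st.1 hh0
      obtain ⟨h2, hh2, h4⟩ := ih (insert (h0 (k l)) Y) (h0 * k) (G.mul_mem hh0'.1 hk) (by
        intro b hb y hy l' hl'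
        rcases Finset.mem_insert.1 hy with rfl | hy
        · exact hkeep b _ _ (h1 b hb)
        · obtain ⟨h5, hh5, h6⟩ := h b hb y hy l' (Finset.mem_insert_of_mem hl')
          have hh5' := mem_st1.1 hh5
          refine ⟨h5 * h0⁻¹, mem_st1.2 ⟨G.mul_mem hh5'.1 (G.inv_mem hh0'.1), ?_⟩, ?_⟩
          · have e : h0⁻¹ y = y := by rw [inv_apply_iff, hh0'.2 y hy]
            rw [Perm.mul_apply, e, hh5'.2]
          · have e : (h5 * h0⁻¹) ((h0 * k) l') = h5 (k l') := by simp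
            rw [e]
            exact h6)
      have hh2' := mem_st.1 hh2
      refine ⟨h2 * h0, mem_st.2 ⟨G.mul_mem hh2'.1 hh0'.1, fun y hy => ?_⟩, fun b hb l' hl' => ?_⟩
      · rw [Perm.mul_apply, hh0'.2 y hy, hh2'.2 y (Finset.mem_insert_of_mem hy)]
      · rcases Finset.mem_insert.1 hl' with rfl | hl'
        · rw [Perm.mul_apply, hh2'.2 _ (Finset.mem_insert_self _ _)]
          exact h1 b hb
        · exact h4 b hb l' hl'
  · intro B L g hg h
    obtain ⟨k, hk, h1⟩ := orb_pairs hΔ har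
      (fun a : {b // b ∈ B} ⊕ {l // l ∈ L} => Sum.elim (fun b => b.1) (fun l => l.1) a)
      (fun a : {b // b ∈ B} ⊕ {l // l ∈ L} => Sum.elim (fun b => b.1) (fun l => g l.1) a) (by
      have hcross : ∀ b ∈ B, ∀ l ∈ L, tp G b l = tp G b (g l) := fun b hb l hl =>
        hFc _ _ _ _ (h b hb l hl).1 (h b hb l hl).2 ⟨1, G.one_mem, rfl⟩ ⟨g, hg, rfl⟩
      intro a b
      rcases a with a | a <;> rcases b with b | b
      · rfl
      · exact hcross a.1 a.2 b.1 b.2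
      · exact tp_swap (hcross b.1 b.2 a.1 a.2)
      · exact (tp_map hg a.1 b.1).symm)
    exact ⟨k, mem_st.2 ⟨hk, fun b hb => h1 (Sum.inl ⟨b, hb⟩)⟩, fun l hl => h1 (Sum.inr ⟨l, hl⟩)⟩

/-- The theorem for binary structures with bounds of size at most three. -/
theorem three_main [Countable D] [Finite ι] {Δ : Str ι ar D}
    (hlin : IsStrictTotalOrder D Δ.lt) (hΔ : Homogeneous Δ) (hR : RamseyProperty Δ)
    (har : ∀ i, ar i ≤ 2) (h3 : BoundedByThree Δ) {Γ : (n : ℕ) → Set (Set (Fin n → D))}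
    (hΓ : IsReduct Δ Γ) (hno : ¬ HasHomToProjections (Pol Γ)) :
    ∃ (n : ℕ) (c : Fin n → D), ∀ m, ¬ HasHomToProjections (TypeClone Δ c (Pol Γ) m) := by
  obtain ⟨F, hF⟩ := exists_farG hlin hΔ hR har h3
  exact far_main hlin hΔ hR hF hΓ hno

end Pool.Agent.MP_f99268_lc
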