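import Pool.Agent.Lib.MP_f99268_lc.Chain

/-!
# Far relations and paths

`G` is a group of permutations of `D`, and `F` is a `G`-invariant binary relation.
-/

namespace Pool.Agent.MP_f99268_lc

open Equiv Classical

variable {D : Type}

/-- An invariant relation such that finite sets can be moved to a position in which they are far
from each other, and such that this position is unique. -/
structure FarG (G : Subgroup (Perm D)) (F : D → D → Prop) : Prop where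
  inv : ∀ g ∈ G, ∀ x y, F x y → F (g x) (g y)
  two : ∀ B Y L : Finset D, (∀ b ∈ B, ∀ y ∈ Y, ∀ l ∈ L, ∃ h ∈ st G {y}, F b (h l)) →
    ∃ h ∈ st G Y, ∀ b ∈ B, ∀ l ∈ L, F b (h l)
  three : ∀ B L : Finset D, ∀ g ∈ G, (∀ b ∈ B, ∀ l ∈ L, F b l ∧ F b (g l)) →
    ∃ h ∈ st G B, ∀ l ∈ L, h l = g l

theorem inv_apply_iff {g : Perm D} {x y : D} : g⁻¹ x = y ↔ x = g y := by
  rw [Perm.inv_eq_iff_eq]

section Pairs

variable {G : Subgroup (Perm D)}

/-- Two pairs are in the same orbit. -/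
def prS (G : Subgroup (Perm D)) : Setoid (D × D) where
  r p q := ∃ g ∈ G, g p.1 = q.1 ∧ g p.2 = q.2
  iseqv :=
    { refl := fun _ => ⟨1, G.one_mem, rfl, rfl⟩
      symm := by
        rintro p q ⟨g, hg, h1, h2⟩
        exact ⟨g⁻¹, G.inv_mem hg, by rw [inv_apply_iff, h1], by rw [inv_apply_iff, h2]⟩
      trans := by
        rintro p q r ⟨g, hg, h1, h2⟩ ⟨g', hg', h1', h2'⟩
        refine ⟨g' * g, G.mul_mem hg' hg, ?_, ?_⟩
        · rw [Perm.mul_apply, h1, h1']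
        · rw [Perm.mul_apply, h2, h2'] }

/-- The set of orbits of pairs. -/
def PT (G : Subgroup (Perm D)) : Type := Quotient (prS G)

/-- The orbit of a pair. -/
def tp (G : Subgroup (Perm D)) (x y : D) : PT G := Quotient.mk (prS G) (x, y)

theorem tp_eq {x y x' y' : D} : tp G x y = tp G x' y' ↔ ∃ g ∈ G, g x = x' ∧ g y = y' := by
  constructor
  · intro h
    exact Quotient.exact h
  · intro h
    exact Quotient.sound (s := prS G) h

theorem tp_map {g : Perm D} (hg : g ∈ G) (x y : D) : tp G (g x) (g y) = tp G x y :=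
  (tp_eq.2 ⟨g, hg, rfl, rfl⟩).symm

theorem mem_st1 {y : D} {g : Perm D} : g ∈ st G {y} ↔ g ∈ G ∧ g y = y := by
  rw [mem_st]
  simp

theorem tp_left {x y y' : D} : tp G x y = tp G x y' ↔ ∃ g ∈ st G {x}, g y = y' := by
  rw [tp_eq]
  constructor
  · rintro ⟨g, hg, h1, h2⟩
    exact ⟨g, mem_st1.2 ⟨hg, h1⟩, h2⟩
  · rintro ⟨g, hg, h⟩
    rw [mem_st1] at hg
    exact ⟨g, hg.1, hg.2, h⟩

theorem finite_PT (hO : Olig G) : Finite (PT G) := by
  obtain ⟨T, hT⟩ := hO.fin ∅ 2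
  refine Finite.of_surjective (α := {t // t ∈ T}) (fun t => tp G (t.1 0) (t.1 1)) ?_
  intro q
  obtain ⟨⟨x, y⟩, rfl⟩ := Quotient.exists_rep q
  obtain ⟨g, hg, h⟩ := hT ![x, y]
  refine ⟨⟨_, h⟩, ?_⟩
  exact tp_map (st_le hg) x y

end Pairs

section Paths

variable {G : Subgroup (Perm D)}

/-- `z` is the end of a path of type `w` that starts at `x`. -/
def Path (G : Subgroup (Perm D)) : List (PT G) → D → D → Prop
  | [], x, z => x = z
  | k :: w, x, z => ∃ x', tp G x x' = k ∧ Path G w x' z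

theorem Path.map : ∀ {w : List (PT G)} {x z : D}, Path G w x z → ∀ {g : Perm D}, g ∈ G →
    Path G w (g x) (g z)
  | [], _, _, h, g, _ => congrArg g h
  | _ :: _, _, _, ⟨x', h1, h2⟩, g, hg => ⟨g x', by rw [tp_map hg, h1], h2.map hg⟩

theorem Path.app : ∀ {w w' : List (PT G)} {x y z : D}, Path G w x y → Path G w' y z →
    Path G (w ++ w') x z
  | [], _, _, _, _, h, h' => by
    cases h
    exact h'
  | _ :: _, _, _, _, _, ⟨x', h1, h2⟩, h' => ⟨x', h1, h2.app h'⟩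

theorem Path.split : ∀ {w w' : List (PT G)} {x z : D}, Path G (w ++ w') x z →
    ∃ y, Path G w x y ∧ Path G w' y z
  | [], _, x, _, h => ⟨x, rfl, h⟩
  | _ :: _, _, _, _, ⟨x', h1, h2⟩ => by
    obtain ⟨y, h3, h4⟩ := h2.split
    exact ⟨y, ⟨x', h1, h3⟩, h4⟩

/-- Ends of paths of the same type are in the same orbit. -/
theorem Path.ends : ∀ {w : List (PT G)} {x z z' : D}, Path G w x z → Path G w x z' →
    ∃ g ∈ G, g z = z'
  | [], _, _, _, h, h' => ⟨1, G.one_mem, h.symm.trans h'⟩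
  | _ :: _, x, _, _, ⟨y, h1, h2⟩, ⟨y', h1', h2'⟩ => by
    obtain ⟨g, hg, h3⟩ := tp_left.1 (h1.trans h1'.symm)
    have h4 := h2.map (st_le hg)
    rw [h3] at h4
    obtain ⟨g', hg', h5⟩ := h4.ends h2'
    exact ⟨g' * g, G.mul_mem hg' (st_le hg), h5⟩

end Paths

section Far

variable {G : Subgroup (Perm D)} {F : D → D → Prop}

theorem FarG.iff (hF : FarG G F) {g : Perm D} (hg : g ∈ G) {x y : D} :
    F (g x) (g y) ↔ F x y := by
  refine ⟨fun h => ?_, hF.inv g hg x y⟩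
  have := hF.inv g⁻¹ (G.inv_mem hg) _ _ h
  simpa using this

theorem FarG.shift (hF : FarG G F) {g : Perm D} (hg : g ∈ G) {x y : D} :
    F (g x) y ↔ F x (g⁻¹ y) := by
  rw [← hF.iff hg (x := x)]
  simp

/-- Moving the set on the left. -/
theorem FarG.two' (hF : FarG G F) (B Y L : Finset D)
    (h : ∀ b ∈ B, ∀ y ∈ Y, ∀ l ∈ L, ∃ h ∈ st G {y}, F (h b) l) :
    ∃ h ∈ st G Y, ∀ b ∈ B, ∀ l ∈ L, F (h b) l := by
  obtain ⟨k, hk, h1⟩ := hF.two B Y L (fun b hb y hy l hl => by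
    obtain ⟨k, hk, h2⟩ := h b hb y hy l hl
    exact ⟨k⁻¹, Subgroup.inv_mem _ hk, (hF.shift (st_le hk)).1 h2⟩)
  refine ⟨k⁻¹, Subgroup.inv_mem _ hk, fun b hb l hl => ?_⟩
  rw [hF.shift (G.inv_mem (st_le hk)), inv_inv]
  exact h1 b hb l hl

theorem FarG.one (hF : FarG G F) (B L : Finset D) : ∃ h ∈ G, ∀ b ∈ B, ∀ l ∈ L, F b (h l) := by
  obtain ⟨h, hh, h1⟩ := hF.two B ∅ L (by simp)
  exact ⟨h, st_le hh, h1⟩

/-- Far position can be kept: the set `Y` is far from `B`, and more points are moved. -/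
theorem FarG.keep (hF : FarG G F) {B Y : Finset D} (hBY : ∀ b ∈ B, ∀ y ∈ Y, F b y)
    (L : Finset D) : ∃ h ∈ st G Y, ∀ b ∈ B, ∀ l ∈ L, F b (h l) := by
  obtain ⟨h, hh, h1⟩ := hF.one B (Y ∪ L)
  obtain ⟨k, hk, h2⟩ := hF.three B Y h hh (fun b hb y hy =>
    ⟨hBY b hb y hy, h1 b hb y (Finset.mem_union_left _ hy)⟩)
  have hk1 := mem_st.1 hk
  refine ⟨k⁻¹ * h, ?_, ?_⟩
  · rw [mem_st]
    refine ⟨G.mul_mem (G.inv_mem hk1.1) hh, fun y hy => ?_⟩
    rw [Perm.mul_apply, inv_apply_iff, h2 y hy]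
  · intro b hb l hl
    have h3 := h1 b hb l (Finset.mem_union_right _ hl)
    rw [Perm.mul_apply, ← hF.shift hk1.1, hk1.2 b hb]
    exact h3

/-- The left version of uniqueness. -/
theorem FarG.three' (hF : FarG G F) (B L : Finset D) (g : Perm D) (hg : g ∈ G)
    (h : ∀ b ∈ B, ∀ l ∈ L, F b l ∧ F (g b) l) : ∃ h ∈ st G L, ∀ b ∈ B, h b = g b := by
  obtain ⟨k, hk, h1⟩ := hF.three B L g⁻¹ (G.inv_mem hg) (fun b hb l hl =>
    ⟨(h b hb l hl).1, (hF.shift hg).1 (h b hb l hl).2⟩)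
  have hk1 := mem_st.1 hk
  refine ⟨g * k, ?_, fun b hb => ?_⟩
  · rw [mem_st]
    refine ⟨G.mul_mem hg hk1.1, fun l hl => ?_⟩
    rw [Perm.mul_apply, h1 l hl]
    simp
  · rw [Perm.mul_apply, hk1.2 b hb]

end Far

section Words

variable {G : Subgroup (Perm D)} {F : D → D → Prop}

/-- Some path of type `w` starting at `y` ends far from `b`. -/
def Good (G : Subgroup (Perm D)) (F : D → D → Prop) (w : List (PT G)) (b y : D) : Prop :=
  ∃ z, Path G w y z ∧ F b z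

/-- The words of length `n`; the letter after which `i` letters remain is in `K i`. -/
def Word (K : ℕ → Set (PT G)) : ℕ → List (PT G) → Prop
  | 0, w => w = []
  | n + 1, w => ∃ k ∈ K n, ∃ w', w = k :: w' ∧ Word K n w'

/-- Every path that starts at `y` can be placed with its end far from `b`. -/
def Un (G : Subgroup (Perm D)) (F : D → D → Prop) (K : ℕ → Set (PT G)) (n : ℕ) (b y : D) : Prop :=
  ∀ w, Word K n w → (∃ z, Path G w y z) → Good G F w b y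

/-- The dual relation. -/
def Wn (G : Subgroup (Perm D)) (F : D → D → Prop) (K : ℕ → Set (PT G)) (n : ℕ) (y l : D) : Prop :=
  ∀ b, Un G F K n b y → ∃ h ∈ st G {y}, F b (h l)

theorem word_length {K : ℕ → Set (PT G)} : ∀ {n : ℕ} {w : List (PT G)}, Word K n w → w.length = n
  | 0, _, h => by rw [h]; rfl
  | n + 1, _, ⟨k, _, w', h, h'⟩ => by
    rw [h, List.length_cons, word_length h']

theorem finite_word (hO : Olig G) (K : ℕ → Set (PT G)) (n : ℕ) : {w | Word K n w}.Finite := by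
  have := finite_PT hO
  exact (List.finite_length_eq (PT G) n).subset (fun w hw => word_length hw)

theorem Good.map (hF : FarG G F) {w : List (PT G)} {b y : D} (h : Good G F w b y) {g : Perm D}
    (hg : g ∈ G) : Good G F w (g b) (g y) := by
  obtain ⟨z, h1, h2⟩ := h
  exact ⟨g z, h1.map hg, hF.inv g hg _ _ h2⟩

theorem Un.map (hF : FarG G F) {K : ℕ → Set (PT G)} {n : ℕ} {b y : D} (h : Un G F K n b y)
    {g : Perm D} (hg : g ∈ G) : Un G F K n (g b) (g y) := by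
  intro w hw ⟨z, hz⟩
  refine (h w hw ⟨g⁻¹ z, ?_⟩).map hF hg
  have := hz.map (G.inv_mem hg)
  simpa using this

theorem Wn.map (hF : FarG G F) {K : ℕ → Set (PT G)} {n : ℕ} {y l : D} (h : Wn G F K n y l)
    {g : Perm D} (hg : g ∈ G) : Wn G F K n (g y) (g l) := by
  intro b hb
  have h1 : Un G F K n (g⁻¹ b) y := by
    have := hb.map hF (G.inv_mem hg)
    simpa using this
  obtain ⟨h', hh', h2⟩ := h _ h1
  rw [mem_st1] at hh'
  refine ⟨g * h' * g⁻¹, ?_, ?_⟩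
  · rw [mem_st1]
    refine ⟨G.mul_mem (G.mul_mem hg hh'.1) (G.inv_mem hg), ?_⟩
    simp [hh'.2]
  · have h3 := hF.inv g hg _ _ h2
    simpa using h3

/-- Continuing a far position. -/
theorem FarG.cont (hF : FarG G F) : ∀ {w : List (PT G)} {b y z : D}, F b y → Path G w y z →
    ∃ z', Path G w y z' ∧ F b z'
  | [], _, y, _, h, _ => ⟨y, rfl, h⟩
  | k :: w, b, y, z, h, ⟨y', h1, h2⟩ => by
    obtain ⟨g, hg, h3⟩ := hF.keep (B := {b}) (Y := {y}) (by simpa using h) {y'}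
    have h4 : F b (g y') := h3 b (by simp) y' (by simp)
    obtain ⟨z', h5, h6⟩ := hF.cont h4 (h2.map (st_le hg))
    refine ⟨z', ⟨g y', ?_, h5⟩, h6⟩
    rw [← h1]
    exact (tp_left.2 ⟨g, hg, rfl⟩).symm

/-- One end point for finitely many points `b`. -/
theorem FarG.common (hF : FarG G F) : ∀ (w : List (PT G)) (a : D) (X : Finset D),
    (∃ z, Path G w a z) → (∀ b ∈ X, Good G F w b a) →
    ∃ z, Path G w a z ∧ ∀ b ∈ X, ∃ h ∈ st G {a}, F b (h z)
  | [], a, X, _, hX => by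
    refine ⟨a, rfl, fun b hb => ⟨1, Subgroup.one_mem _, ?_⟩⟩
    obtain ⟨z, h1, h2⟩ := hX b hb
    cases h1
    exact h2
  | k :: w, a, X, ⟨z, a₁, h1, h2⟩, hX => by
    have h3 : ∀ b : {b // b ∈ X}, ∃ g ∈ st G {a}, Good G F w (g b) a₁ := by
      rintro ⟨b, hb⟩
      obtain ⟨z', ⟨a', h4, h5⟩, h6⟩ := hX b hb
      obtain ⟨g, hg, h7⟩ := tp_left.1 (h4.trans h1.symm)
      refine ⟨g, hg, g z', ?_, hF.inv g (st_le hg) _ _ h6⟩
      rw [← h7]
      exact h5.map (st_le hg)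
    choose g hg hgood using h3
    obtain ⟨z₁, h4, h5⟩ := hF.common w a₁ (Finset.univ.image fun b : {b // b ∈ X} => g b b)
      ⟨z, h2⟩ (by
        intro b hb
        obtain ⟨b', -, rfl⟩ := Finset.mem_image.1 hb
        exact hgood b')
    obtain ⟨h, hh, h6⟩ := hF.two (Finset.univ.image fun b : {b // b ∈ X} => g b b) {a₁} {z₁} (by
      intro b hb y hy l hl
      rw [Finset.mem_singleton] at hy hl
      subst hy hl
      exact h5 b hb)
    have hh1 := mem_st1.1 hh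
    refine ⟨h z₁, ⟨a₁, h1, ?_⟩, fun b hb => ?_⟩
    · have := h4.map hh1.1
      rwa [hh1.2] at this
    · have h7 := h6 _ (Finset.mem_image.2 ⟨⟨b, hb⟩, Finset.mem_univ _, rfl⟩) z₁ (by simp)
      refine ⟨(g ⟨b, hb⟩)⁻¹, Subgroup.inv_mem _ (hg _), ?_⟩
      exact (hF.shift (st_le (hg _))).1 h7

/-- Finitely many representatives of the points over one point. -/
theorem Olig.reps {G : Subgroup (Perm D)} (hO : Olig G) (a : D) :
    ∃ T : Finset D, ∀ x, ∃ g ∈ MP_f99268_lc.st G {a}, g x ∈ T := hO {a}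

/-- The double dual. -/
theorem FarG.dd (hF : FarG G F) (hO : Olig G) {K : ℕ → Set (PT G)} {n : ℕ} {b y : D}
    (h : ∀ l, Wn G F K n y l → ∃ h ∈ st G {y}, F b (h l)) : Un G F K n b y := by
  intro w hw hz
  obtain ⟨T, hT⟩ := hO.reps y
  obtain ⟨l, h1, h2⟩ := hF.common w y (T.filter fun b => Un G F K n b y) hz (by
    intro b hb
    exact (Finset.mem_filter.1 hb).2 w hw hz)
  have h3 : Wn G F K n y l := by
    intro b' hb'
    obtain ⟨g, hg, hgT⟩ := hT b'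
    have hg1 := mem_st1.1 hg
    have h4 : Un G F K n (g b') y := by
      have := hb'.map hF hg1.1
      rwa [hg1.2] at this
    obtain ⟨k, hk, h5⟩ := h2 (g b') (Finset.mem_filter.2 ⟨hgT, h4⟩)
    refine ⟨g⁻¹ * k, Subgroup.mul_mem _ (Subgroup.inv_mem _ hg) hk, ?_⟩
    rw [Perm.mul_apply, ← hF.shift hg1.1]
    exact h5
  obtain ⟨k, hk, h4⟩ := h l h3
  have hk1 := mem_st1.1 hk
  refine ⟨k l, ?_, h4⟩
  have := h1.map hk1.1
  rwa [hk1.2] at this

/-- One more step. -/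
theorem FarG.g1 (hF : FarG G F) (hO : Olig G) {K : ℕ → Set (PT G)} {n : ℕ} {b a c : D}
    (hb : Un G F K (n + 1) b a) (hc : tp G a c ∈ K n) :
    ∃ h ∈ st G {a}, Un G F K n (h b) c := by
  have hfin : {w | Word K n w ∧ ∃ z, Path G w c z}.Finite :=
    (finite_word hO K n).subset (fun w hw => hw.1)
  have h1 : ∀ w : {w // w ∈ hfin.toFinset}, ∃ l, Path G w.1 c l ∧
      ∃ g ∈ st G {a}, F (g b) l := by
    rintro ⟨w, hw⟩
    rw [Set.Finite.mem_toFinset] at hw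
    obtain ⟨hw1, z, hz⟩ := hw
    obtain ⟨z', ⟨c', h2, h3⟩, h4⟩ := hb (tp G a c :: w) ⟨_, hc, w, rfl, hw1⟩ ⟨z, c, rfl, hz⟩
    obtain ⟨g, hg, h5⟩ := tp_left.1 h2
    refine ⟨g z', ?_, g, hg, hF.inv g (st_le hg) _ _ h4⟩
    have h6 := h3.map (st_le hg)
    rw [h5] at h6
    exact h6
  choose l hl g hg hgl using h1
  obtain ⟨h, hh, h2⟩ := hF.two' {b} {a} (Finset.univ.image l) (by
    intro b' hb' y hy l' hl'
    rw [Finset.mem_singleton] at hb' hy
    subst hb' hy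
    obtain ⟨w, -, rfl⟩ := Finset.mem_image.1 hl'
    exact ⟨g w, hg w, hgl w⟩)
  refine ⟨h, hh, fun w hw hz => ?_⟩
  have hmem : w ∈ hfin.toFinset := by
    rw [Set.Finite.mem_toFinset]
    exact ⟨hw, hz⟩
  exact ⟨_, hl ⟨w, hmem⟩, h2 b (by simp) _
    (Finset.mem_image_of_mem _ (Finset.mem_univ _))⟩

/-- Simultaneous duals. -/
theorem FarG.dual (hF : FarG G F) (hO : Olig G) {K : ℕ → Set (PT G)} {n : ℕ} {c l : D}
    (hl : Wn G F K n c l) (A : Finset D) (hA : ∀ a ∈ A, tp G a c ∈ K n) :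
    ∃ h ∈ st G {c}, ∀ a ∈ A, Wn G F K (n + 1) a (h l) := by
  choose T hT using fun a => hO.reps a
  have h1 : ∀ a b : D, ∃ h ∈ st G {a}, a ∈ A → Un G F K (n + 1) b a → Un G F K n (h b) c := by
    intro a b
    by_cases h : a ∈ A ∧ Un G F K (n + 1) b a
    · obtain ⟨g, hg, h2⟩ := hF.g1 hO h.2 (hA a h.1)
      exact ⟨g, hg, fun _ _ => h2⟩
    · exact ⟨1, Subgroup.one_mem _, fun h2 h3 => absurd ⟨h2, h3⟩ h⟩
  choose k hk hkU using h1
  obtain ⟨h, hh, h2⟩ := hF.two (((A ×ˢ A.biUnion T).filter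
      (fun p => Un G F K (n + 1) p.2 p.1)).image fun p => k p.1 p.2 p.2) {c} {l} (by
    intro b' hb' y hy l' hl'
    rw [Finset.mem_singleton] at hy hl'
    rw [hy, hl']
    obtain ⟨p, hp, rfl⟩ := Finset.mem_image.1 hb'
    rw [Finset.mem_filter, Finset.mem_product] at hp
    exact hl _ (hkU p.1 p.2 hp.1.1 hp.2))
  refine ⟨h, hh, fun a ha b hb => ?_⟩
  obtain ⟨g, hg, hgT⟩ := hT a b
  have hg1 := mem_st1.1 hg
  have h3 : Un G F K (n + 1) (g b) a := by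
    have := hb.map hF hg1.1
    rwa [hg1.2] at this
  have hmem : (a, g b) ∈ (A ×ˢ A.biUnion T).filter (fun p => Un G F K (n + 1) p.2 p.1) := by
    rw [Finset.mem_filter, Finset.mem_product]
    exact ⟨⟨ha, Finset.mem_biUnion.2 ⟨a, ha, hgT⟩⟩, h3⟩
  have h5 : F (k a (g b) (g b)) (h l) :=
    h2 _ (Finset.mem_image.2 ⟨(a, g b), hmem, rfl⟩) l (by simp)
  refine ⟨(k a (g b) * g)⁻¹, Subgroup.inv_mem _ (Subgroup.mul_mem _ (hk a _) hg), ?_⟩
  rw [← hF.shift (G.mul_mem (st_le (hk a _)) hg1.1)]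
  exact h5

/-- The glueing step. -/
theorem FarG.glue_step (hF : FarG G F) (hO : Olig G) {K : ℕ → Set (PT G)} {n : ℕ}
    (B AP AQ : Finset D) (hK : ∀ a ∈ AP, ∀ c ∈ AQ, tp G a c ∈ K n)
    (hB : ∀ b ∈ B, ∀ a ∈ AP, Un G F K (n + 1) b a) :
    ∃ h ∈ st G AP, ∀ b ∈ B, ∀ c ∈ AQ, Un G F K n b (h c) := by
  choose T hT using fun c => hO.reps c
  have h1 : ∀ c l : D, ∃ h ∈ st G {c}, c ∈ AQ → Wn G F K n c l → ∀ a ∈ AP,
      Wn G F K (n + 1) a (h l) := by
    intro c l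
    by_cases h : c ∈ AQ ∧ Wn G F K n c l
    · obtain ⟨g, hg, h2⟩ := hF.dual hO h.2 AP (fun a ha => hK a ha c h.1)
      exact ⟨g, hg, fun _ _ => h2⟩
    · exact ⟨1, Subgroup.one_mem _, fun h2 h3 => absurd ⟨h2, h3⟩ h⟩
  choose k hk hkW using h1
  obtain ⟨h, hh, h2⟩ := hF.two B AP (((AQ ×ˢ AQ.biUnion T).filter
      (fun p => Wn G F K n p.1 p.2)).image fun p => k p.1 p.2 p.2) (by
    intro b hb y hy l' hl'
    obtain ⟨p, hp, rfl⟩ := Finset.mem_image.1 hl'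
    rw [Finset.mem_filter, Finset.mem_product] at hp
    exact hkW p.1 p.2 hp.1.1 hp.2 y hy b (hB b hb y hy))
  have hh1 := mem_st.1 hh
  refine ⟨h, hh, fun b hb c hc => hF.dd hO fun l hl => ?_⟩
  obtain ⟨g, hg, hgT⟩ := hT c (h⁻¹ l)
  have hg1 := mem_st1.1 hg
  have e : h⁻¹ (h c) = c := by simp
  have h3 : Wn G F K n c (g (h⁻¹ l)) := by
    have h4 := (hl.map hF (G.inv_mem hh1.1)).map hF hg1.1
    rwa [e, hg1.2] at h4
  have hmem : (c, g (h⁻¹ l)) ∈ (AQ ×ˢ AQ.biUnion T).filter (fun p => Wn G F K n p.1 p.2) := by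
    rw [Finset.mem_filter, Finset.mem_product]
    exact ⟨⟨hc, Finset.mem_biUnion.2 ⟨c, hc, hgT⟩⟩, h3⟩
  have h5 : F b (h (k c (g (h⁻¹ l)) (g (h⁻¹ l)))) :=
    h2 b hb _ (Finset.mem_image.2 ⟨(c, g (h⁻¹ l)), hmem, rfl⟩)
  have hk1 := mem_st1.1 (hk c (g (h⁻¹ l)))
  refine ⟨h * k c (g (h⁻¹ l)) * g * h⁻¹, ?_, h5⟩
  rw [mem_st1]
  refine ⟨G.mul_mem (G.mul_mem (G.mul_mem hh1.1 hk1.1) hg1.1) (G.inv_mem hh1.1), ?_⟩
  show h (k c (g (h⁻¹ l)) (g (h⁻¹ (h c)))) = h c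
  rw [e, hg1.2, hk1.2]

end Words

end Pool.Agent.MP_f99268_lc
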